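import Pool.Agent.Lib.MP_100a6c_lc.IfaceV

/-!
# V1: the notions in the universe of sets
-/

universe u

open Cardinal Order

open scoped symmDiff

namespace Pool.Agent.Lib.MP_100a6c_lc.H77

theorem V_mem (x y : ZFSet.{u}) : V.mem x y = (x ∈ y) := rfl
theorem V_eq (x y : ZFSet.{u}) : V.eq x y = (x = y) := rfl

theorem bihimp_prop (p q : Prop) : (p ⇔ q) = (p ↔ q) := propext bihimp_iff_iff
theorem himp_prop (p q : Prop) : (p ⇨ q) = (p → q) := rfl

theorem sub_iff (x y : ZFSet.{u}) : V.sub x y ↔ x ⊆ y := by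
  simp only [Str.sub, iInf_Prop_eq, himp_prop, V_mem]
  rfl

theorem isUPair_iff (p a b : ZFSet.{u}) : V.isUPair p a b ↔ p = {a, b} := by
  simp only [Str.isUPair, iInf_Prop_eq, bihimp_prop, V_mem, V_eq, sup_Prop_eq]
  rw [ZFSet.ext_iff]
  simp only [ZFSet.mem_pair]

theorem isPair_iff (p a b : ZFSet.{u}) : V.isPair p a b ↔ p = ZFSet.pair a b := by
  simp only [Str.isPair, iSup_Prop_eq, inf_Prop_eq, isUPair_iff]
  constructor
  · rintro ⟨s, t, ⟨rfl, rfl⟩, rfl⟩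
    simp [ZFSet.pair]
  · rintro rfl
    exact ⟨_, _, ⟨rfl, rfl⟩, by simp [ZFSet.pair]⟩

theorem rel_iff (f a b : ZFSet.{u}) : V.rel f a b ↔ ZFSet.pair a b ∈ f := by
  simp only [Str.rel, iSup_Prop_eq, inf_Prop_eq, isPair_iff, V_mem]
  constructor
  · rintro ⟨p, rfl, h⟩
    exact h
  · intro h
    exact ⟨_, rfl, h⟩

theorem leCard_iff (x y : ZFSet.{u}) : V.leCard x y ↔ x.card ≤ y.card := by
  simp only [Str.leCard, iSup_Prop_eq, iInf_Prop_eq, inf_Prop_eq, himp_prop, V_mem, V_eq, rel_iff]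
  constructor
  · rintro ⟨f, h1, h2⟩
    rw [← Cardinal.lift_le.{u + 1}, ← ZFSet.cardinalMk_coe_sort, ← ZFSet.cardinalMk_coe_sort]
    choose g hg hgf using h2
    refine Cardinal.mk_le_of_injective (f := fun a : x => (⟨g a.1 a.2, hg a.1 a.2⟩ : y)) ?_
    rintro ⟨a, ha⟩ ⟨a', ha'⟩ h
    simp only [Subtype.mk.injEq] at h
    have := h1 (g a ha) a a' ⟨hgf a ha, h ▸ hgf a' ha'⟩
    simpa using this
  · intro h
    rw [← Cardinal.lift_le.{u + 1}, ← ZFSet.cardinalMk_coe_sort, ← ZFSet.cardinalMk_coe_sort] at h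
    obtain ⟨g⟩ := h
    refine ⟨ZFSet.pairSep (fun b a => ∃ ha : a ∈ x, (g ⟨a, ha⟩).1 = b) y x, ?_, ?_⟩
    · rintro b a a' ⟨h1, h2⟩
      rw [ZFSet.mem_pairSep] at h1 h2
      obtain ⟨b1, -, a1, -, e1, ha1, hb1⟩ := h1
      obtain ⟨b2, -, a2, -, e2, ha2, hb2⟩ := h2
      rw [ZFSet.pair_inj] at e1 e2
      obtain ⟨rfl, rfl⟩ := e1
      obtain ⟨rfl, rfl⟩ := e2
      have := g.injective (Subtype.ext (hb1.trans hb2.symm))
      simpa using this
    · intro a ha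
      refine ⟨(g ⟨a, ha⟩).1, (g ⟨a, ha⟩).2, ?_⟩
      rw [ZFSet.mem_pairSep]
      exact ⟨_, (g ⟨a, ha⟩).2, a, ha, rfl, ha, rfl⟩

theorem isTrans_iff (x : ZFSet.{u}) : V.isTrans x ↔ x.IsTransitive := by
  simp only [Str.isTrans, iInf_Prop_eq, himp_prop, V_mem, sub_iff]
  rfl

theorem isOrd_iff (x : ZFSet.{u}) : V.isOrd x ↔ x.IsOrdinal := by
  simp only [Str.isOrd, iInf_Prop_eq, inf_Prop_eq, himp_prop, V_mem, isTrans_iff]
  rw [ZFSet.isOrdinal_iff_forall_mem_isTransitive]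

theorem isFun_iff (s a b : ZFSet.{u}) : V.isFun s a b ↔ ZFSet.IsFunc a b s := by
  simp only [Str.isFun, iInf_Prop_eq, iSup_Prop_eq, inf_Prop_eq, himp_prop, V_mem, V_eq, rel_iff,
    isPair_iff, ZFSet.IsFunc]
  constructor
  · rintro ⟨⟨h1, h2⟩, h3⟩
    refine ⟨?_, ?_⟩
    · intro p hp
      obtain ⟨x, y, ⟨hx, hy⟩, rfl⟩ := h1 p hp
      rw [ZFSet.pair_mem_prod]
      exact ⟨hx, hy⟩
    · intro z hz
      obtain ⟨w, hw⟩ := h2 z hz
      exact ⟨w, hw, fun w' hw' => h3 _ _ _ ⟨hw', hw⟩⟩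
  · rintro ⟨h1, h2⟩
    refine ⟨⟨?_, ?_⟩, ?_⟩
    · intro p hp
      obtain ⟨x, hx, y, hy, rfl⟩ := ZFSet.mem_prod.1 (h1 hp)
      exact ⟨x, y, ⟨hx, hy⟩, rfl⟩
    · intro x hx
      exact (h2 x hx).exists
    · rintro x y y' ⟨h, h'⟩
      have hx := (ZFSet.pair_mem_prod.1 (h1 h)).1
      exact (h2 x hx).unique h h'


/-- The set function `x → θ` given by `g` on ordinals. -/
theorem isFun_ord {ρ o : Ordinal.{u}} (g : ρ.ToType → Ordinal.{u}) (hg : ∀ i, g i < o) :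
    ∃ f : ZFSet.{u}, ZFSet.IsFunc ρ.toZFSet o.toZFSet f ∧
      ∀ i : ρ.ToType, ZFSet.pair (i.toOrd : Ordinal).toZFSet (g i).toZFSet ∈ f := by
  refine ⟨ZFSet.pairSep (fun x y => ∃ i : ρ.ToType, x = (i.toOrd : Ordinal).toZFSet ∧
    y = (g i).toZFSet) ρ.toZFSet o.toZFSet, ⟨?_, ?_⟩, ?_⟩
  · intro p hp
    rw [ZFSet.mem_pairSep] at hp
    obtain ⟨a, ha, b, hb, rfl, -⟩ := hp
    rw [ZFSet.pair_mem_prod]
    exact ⟨ha, hb⟩
  · intro z hz
    obtain ⟨a, ha, rfl⟩ := Ordinal.mem_toZFSet_iff.1 hz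
    have hi : ((Ordinal.ToType.mk ⟨a, ha⟩ : ρ.ToType).toOrd : Ordinal) = a := by
      simp [Ordinal.ToType.toOrd]
    refine ⟨(g (Ordinal.ToType.mk ⟨a, ha⟩)).toZFSet, ?_, ?_⟩
    · simp only [ZFSet.mem_pairSep]
      refine ⟨_, hz, _, Ordinal.toZFSet_mem_toZFSet_iff.2 (hg _), rfl, _, ?_, rfl⟩
      rw [hi]
    · intro w hw
      simp only [ZFSet.mem_pairSep] at hw
      obtain ⟨a', -, b', -, e, i, h1, h2⟩ := hw
      rw [ZFSet.pair_inj] at e
      obtain ⟨rfl, rfl⟩ := e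
      have h3 := Ordinal.toZFSet_injective h1
      have h4 : i = Ordinal.ToType.mk ⟨a, ha⟩ := by
        rw [← hi] at h3
        have h5 := Subtype.ext h3
        exact (Ordinal.ToType.mk.symm.injective h5).symm
      rw [h2, h4]
  · intro i
    rw [ZFSet.mem_pairSep]
    exact ⟨_, Ordinal.toZFSet_mem_toZFSet_iff.2 i.toOrd.2, _,
      Ordinal.toZFSet_mem_toZFSet_iff.2 (hg i), rfl, i, rfl, rfl⟩

theorem isReg_iff (θ : ZFSet.{u}) :
    V.isReg θ ↔ ∃ c : Cardinal.{u}, c.IsRegular ∧ θ = c.ord.toZFSet := by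
  simp only [Str.isReg, iInf_Prop_eq, iSup_Prop_eq, inf_Prop_eq, himp_prop, V_mem, rel_iff,
    isOrd_iff, isFun_iff]
  constructor
  · rintro ⟨⟨⟨h1, x, hx⟩, h3⟩, h4⟩
    obtain ⟨o, rfl⟩ := ZFSet.isOrdinal_iff_mem_range_toZFSet.1 h1
    have hlim : IsSuccLimit o := by
      rw [Ordinal.isSuccLimit_iff]
      refine ⟨?_, ?_⟩
      · rintro rfl
        simp at hx
      · rw [isSuccPrelimit_iff_succ_lt]
        intro a ha
        obtain ⟨y, hy, hay⟩ := h3 _ (Ordinal.toZFSet_mem_toZFSet_iff.2 ha)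
        obtain ⟨b, hb, rfl⟩ := Ordinal.mem_toZFSet_iff.1 hy
        rw [Ordinal.toZFSet_mem_toZFSet_iff] at hay
        exact (succ_le_of_lt hay).trans_lt hb
    refine ⟨o.cof, isRegular_cof hlim, ?_⟩
    by_contra hne
    have hlt : o.cof.ord < o := lt_of_le_of_ne (Ordinal.ord_cof_le o)
      (fun h => hne (by rw [h]))
    obtain ⟨S, hS, hcard⟩ := Order.exists_cof_eq o.ToType
    rw [Ordinal.cof_toType] at hcard
    have he : #(o.cof.ord.ToType) = #S := by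
      rw [hcard, Cardinal.mk_toType, Cardinal.card_ord]
    obtain ⟨e⟩ := Cardinal.eq.1 he
    obtain ⟨f, hf, hf'⟩ := isFun_ord (ρ := o.cof.ord) (o := o)
      (fun i => ((e i : o.ToType).toOrd : Ordinal)) (fun i => (e i : o.ToType).toOrd.2)
    obtain ⟨β, hβ, hβ'⟩ := h4 _ (Ordinal.toZFSet_mem_toZFSet_iff.2 hlt) f hf
    obtain ⟨b, hb, rfl⟩ := Ordinal.mem_toZFSet_iff.1 hβ
    obtain ⟨s, hs, hbs⟩ := hS (Ordinal.ToType.mk ⟨b, hb⟩)
    have h5 := hβ' _ _ (hf' (e.symm ⟨s, hs⟩))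
    rw [Ordinal.toZFSet_mem_toZFSet_iff] at h5
    simp only [Equiv.apply_symm_apply] at h5
    have h6 : (⟨b, hb⟩ : Set.Iio o) ≤ s.toOrd := by
      rw [← Ordinal.ToType.mk.le_iff_le]
      simpa [Ordinal.ToType.toOrd] using hbs
    exact absurd h5 (not_lt.2 h6)
  · rintro ⟨c, hc, rfl⟩
    have hlim : IsSuccLimit c.ord := Cardinal.isSuccLimit_ord hc.aleph0_le
    refine ⟨⟨⟨ZFSet.isOrdinal_toZFSet _, ?_⟩, ?_⟩, ?_⟩
    · exact ⟨Ordinal.toZFSet 0, Ordinal.toZFSet_mem_toZFSet_iff.2 hc.ord_pos⟩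
    · intro x hx
      obtain ⟨a, ha, rfl⟩ := Ordinal.mem_toZFSet_iff.1 hx
      exact ⟨(succ a).toZFSet, Ordinal.toZFSet_mem_toZFSet_iff.2 (hlim.succ_lt ha),
        Ordinal.toZFSet_mem_toZFSet_iff.2 (lt_succ a)⟩
    · intro ρ hρ f hf
      obtain ⟨r, hr, rfl⟩ := Ordinal.mem_toZFSet_iff.1 hρ
      have key : ∀ i : r.ToType, ∃ b < c.ord,
          ZFSet.pair (i.toOrd : Ordinal).toZFSet b.toZFSet ∈ f := by
        intro i
        obtain ⟨w, hw⟩ := (hf.2 _ (Ordinal.toZFSet_mem_toZFSet_iff.2 (Set.mem_Iio.1 i.toOrd.2))).exists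
        have h7 := (ZFSet.pair_mem_prod.1 (hf.1 hw)).2
        obtain ⟨b, hb, rfl⟩ := Ordinal.mem_toZFSet_iff.1 h7
        exact ⟨b, hb, hw⟩
      choose g hg hg' using key
      have hcof : #r.ToType < c.ord.cof := by
        rw [hc.cof_ord, Cardinal.mk_toType]
        exact Cardinal.lt_ord.1 hr
      have hlt := Ordinal.iSup_add_one_lt_of_lt_cof hcof hg
      refine ⟨_, Ordinal.toZFSet_mem_toZFSet_iff.2 hlt, ?_⟩
      intro x y hxy
      have hx := (ZFSet.pair_mem_prod.1 (hf.1 hxy)).1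
      obtain ⟨a, ha, rfl⟩ := Ordinal.mem_toZFSet_iff.1 hx
      have hi : ((Ordinal.ToType.mk ⟨a, ha⟩ : r.ToType).toOrd : Ordinal) = a := by
        simp [Ordinal.ToType.toOrd]
      have h8 := hg' (Ordinal.ToType.mk ⟨a, ha⟩)
      rw [hi] at h8
      have h9 := (hf.2 _ hx).unique hxy h8
      rw [h9, Ordinal.toZFSet_mem_toZFSet_iff]
      exact Ordinal.lt_iSup_add_one (fun i => g i) _

theorem isSucc_iff (μ : ZFSet.{u}) (c : Cardinal.{u}) :
    V.isSucc μ c.ord.toZFSet ↔ μ = (succ c).ord.toZFSet := by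
  simp only [Str.isSucc, iInf_Prop_eq, inf_Prop_eq, himp_prop, V_mem, isOrd_iff, leCard_iff,
    compl_iff_not]
  constructor
  · rintro ⟨⟨h1, h2⟩, h3⟩
    obtain ⟨o, rfl⟩ := ZFSet.isOrdinal_iff_mem_range_toZFSet.1 h1
    rw [Ordinal.card_toZFSet, Ordinal.card_toZFSet, Cardinal.card_ord, not_le] at h2
    congr 1
    apply le_antisymm
    · apply le_of_forall_lt
      intro a ha
      have := h3 _ (Ordinal.toZFSet_mem_toZFSet_iff.2 ha)
      rw [Ordinal.card_toZFSet, Ordinal.card_toZFSet, Cardinal.card_ord] at this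
      rw [Cardinal.lt_ord]
      exact lt_succ_of_le this
    · rw [Cardinal.ord_le]
      exact succ_le_of_lt h2
  · rintro rfl
    refine ⟨⟨ZFSet.isOrdinal_toZFSet _, ?_⟩, ?_⟩
    · rw [Ordinal.card_toZFSet, Ordinal.card_toZFSet, Cardinal.card_ord, Cardinal.card_ord, not_le]
      exact lt_succ c
    · intro ξ hξ
      obtain ⟨a, ha, rfl⟩ := Ordinal.mem_toZFSet_iff.1 hξ
      rw [Ordinal.card_toZFSet, Ordinal.card_toZFSet, Cardinal.card_ord]
      exact le_of_lt_succ (Cardinal.lt_ord.1 ha)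

/-! ### Functions and `κ^{<κ} = κ` -/

/-- Set functions and functions between the types of elements. -/
noncomputable def funsEquiv (x y : ZFSet.{u}) : (x → y) ≃ (ZFSet.funs x y) where
  toFun g := ⟨ZFSet.pairSep (fun a b => ∃ ha : a ∈ x, (g ⟨a, ha⟩).1 = b) x y, by
    rw [ZFSet.mem_funs]
    refine ⟨?_, ?_⟩
    · intro p hp
      rw [ZFSet.mem_pairSep] at hp
      obtain ⟨a, ha, b, hb, rfl, -⟩ := hp
      rw [ZFSet.pair_mem_prod]
      exact ⟨ha, hb⟩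
    · intro z hz
      refine ⟨(g ⟨z, hz⟩).1, ?_, ?_⟩
      · simp only [ZFSet.mem_pairSep]
        exact ⟨_, hz, _, (g ⟨z, hz⟩).2, rfl, hz, rfl⟩
      · intro w hw
        simp only [ZFSet.mem_pairSep] at hw
        obtain ⟨a, -, b, -, e, ha, hb⟩ := hw
        rw [ZFSet.pair_inj] at e
        obtain ⟨rfl, rfl⟩ := e
        exact hb.symm⟩
  invFun s := fun a => ⟨((ZFSet.mem_funs.1 s.2).2 a.1 a.2).choose, by
    have h := ((ZFSet.mem_funs.1 s.2).2 a.1 a.2).choose_spec.1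
    exact (ZFSet.pair_mem_prod.1 ((ZFSet.mem_funs.1 s.2).1 h)).2⟩
  left_inv g := by
    funext a
    apply Subtype.ext
    simp only
    generalize_proofs h1
    obtain ⟨a', -, b', -, e, ha, hb⟩ := ZFSet.mem_pairSep.1 h1.choose_spec.1
    rw [ZFSet.pair_inj] at e
    obtain ⟨e1, e2⟩ := e
    subst e1
    exact e2.trans hb.symm
  right_inv s := by
    apply Subtype.ext
    ext p
    have hs := ZFSet.mem_funs.1 s.2
    simp only [ZFSet.mem_pairSep]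
    constructor
    · rintro ⟨a, ha, b, hb, rfl, ha', h⟩
      have := (hs.2 a ha).choose_spec.1
      rw [← h]
      exact this
    · intro hp
      obtain ⟨a, ha, b, hb, rfl⟩ := ZFSet.mem_prod.1 (hs.1 hp)
      refine ⟨a, ha, b, hb, rfl, ha, ?_⟩
      exact (hs.2 a ha).unique (hs.2 a ha).choose_spec.1 hp

theorem card_funs (x y : ZFSet.{u}) : (ZFSet.funs x y).card = y.card ^ x.card := by
  rw [← Cardinal.lift_inj.{u, u + 1}, Cardinal.lift_power, ← ZFSet.cardinalMk_coe_sort,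
    ← ZFSet.cardinalMk_coe_sort, ← ZFSet.cardinalMk_coe_sort, Cardinal.power_def]
  exact (Cardinal.mk_congr (funsEquiv x y)).symm

theorem std_iff (κ : ZFSet.{u}) :
    V.std κ ↔ ∃ c : Cardinal.{u}, c.IsRegular ∧ κ = c.ord.toZFSet ∧ ∀ d < c, c ^ d ≤ c := by
  simp only [Str.std, iInf_Prop_eq, iSup_Prop_eq, inf_Prop_eq, bihimp_prop, V_mem, isReg_iff,
    isFun_iff, leCard_iff]
  constructor
  · rintro ⟨⟨c, hc, rfl⟩, F, hF, hF'⟩
    refine ⟨c, hc, rfl, ?_⟩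
    intro d hd
    have hsub : ZFSet.funs d.ord.toZFSet c.ord.toZFSet ⊆ F := by
      intro s hs
      rw [hF]
      exact ⟨_, Ordinal.toZFSet_mem_toZFSet_iff.2 (Cardinal.ord_lt_ord.2 hd),
        ZFSet.mem_funs.1 hs⟩
    have := (ZFSet.card_mono hsub).trans hF'
    rw [card_funs] at this
    simpa [Ordinal.card_toZFSet] using this
  · rintro ⟨c, hc, rfl, h⟩
    refine ⟨⟨c, hc, rfl⟩, ?_⟩
    let κ : ZFSet.{u} := c.ord.toZFSet
    have hκ : κ.card = c := by simp [κ, Ordinal.card_toZFSet]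
    let F : ZFSet.{u} := ZFSet.sep (fun s => ∃ ξ ∈ κ, ZFSet.IsFunc ξ κ s)
      (ZFSet.powerset (ZFSet.prod κ κ))
    have hF : ∀ s, s ∈ F ↔ ∃ ξ ∈ κ, ZFSet.IsFunc ξ κ s := by
      intro s
      rw [ZFSet.mem_sep]
      constructor
      · exact fun h => h.2
      · rintro ⟨ξ, hξ, hs⟩
        refine ⟨?_, ξ, hξ, hs⟩
        rw [ZFSet.mem_powerset]
        intro p hp
        obtain ⟨a, ha, b, hb, rfl⟩ := ZFSet.mem_prod.1 (hs.1 hp)
        rw [ZFSet.pair_mem_prod]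
        exact ⟨(ZFSet.isOrdinal_toZFSet _).mem_trans ha hξ, hb⟩
    refine ⟨F, hF, ?_⟩
    have h1 : #F ≤ #(Σ ξ : κ, ZFSet.funs ξ.1 κ) := by
      have hch : ∀ s : F, ∃ ξ ∈ κ, ZFSet.IsFunc ξ κ s.1 := fun s => (hF s.1).1 s.2
      choose g hg hg' using hch
      refine Cardinal.mk_le_of_injective
        (f := fun s : F => (⟨⟨g s, hg s⟩, ⟨s.1, ZFSet.mem_funs.2 (hg' s)⟩⟩ :
          Σ ξ : κ, ZFSet.funs ξ.1 κ)) ?_
      intro s s' hss
      apply Subtype.ext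
      have : ∀ (a b : Σ ξ : κ, ZFSet.funs ξ.1 κ), a = b → a.2.1 = b.2.1 := by
        rintro a b rfl
        rfl
      exact this _ _ hss
    have h2 : #(Σ ξ : κ, ZFSet.funs ξ.1 κ) ≤ Cardinal.lift.{u + 1} c := by
      rw [Cardinal.mk_sigma]
      have h3 : ∀ ξ : κ, #(ZFSet.funs ξ.1 κ) ≤ Cardinal.lift.{u + 1} c := by
        intro ξ
        rw [ZFSet.cardinalMk_coe_sort, card_funs, hκ, Cardinal.lift_le]
        apply h
        obtain ⟨a, ha, ha'⟩ := Ordinal.mem_toZFSet_iff.1 ξ.2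
        rw [← ha', Ordinal.card_toZFSet]
        exact Cardinal.lt_ord.1 ha
      refine (Cardinal.sum_le_sum _ _ h3).trans ?_
      rw [Cardinal.sum_const, ZFSet.cardinalMk_coe_sort, hκ]
      simp only [Cardinal.lift_id]
      have h4 : ℵ₀ ≤ Cardinal.lift.{u + 1} c := by
        rw [Cardinal.aleph0_le_lift]
        exact hc.aleph0_le
      exact (Cardinal.mul_eq_self h4).le
    have h5 := h1.trans h2
    rw [ZFSet.cardinalMk_coe_sort, Cardinal.lift_le] at h5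
    rw [show (c.ord.toZFSet).card = c from hκ]
    exact h5

/-- V1. -/
theorem v1 : V1Statement.{u} :=
  ⟨sub_iff, isPair_iff, rel_iff, leCard_iff, isTrans_iff, isOrd_iff, isFun_iff, isReg_iff,
    std_iff, fun μ c _ => isSucc_iff μ c⟩

end Pool.Agent.Lib.MP_100a6c_lc.H77
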