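import Pool.Agent.Lib.MP_100a6c_lc.IfaceB

/-!
# ENUM: enumeration of the functions from `ξ < κ` to a set of size `≤ κ`
-/

universe u

open scoped symmDiff
open Cardinal

namespace Pool.Agent.Lib.MP_100a6c_lc.H77

open BName

variable {B : Type u} [CompleteBooleanAlgebra B]

/-! ## Functions -/

theorem isFun_rel_mem (s a b x z : BName B) :
    (VB B).isFun s a b ⊓ (VB B).rel s x z ≤ bmem x a ⊓ bmem z b := by
  have h1 : (VB B).isFun s a b ⊓ (VB B).rel s x z ≤
      ⨆ x', ⨆ y', (VB B).mem x' a ⊓ (VB B).mem y' b ⊓ (VB B).isPair (opr x z) x' y' := by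
    refine iInf_himp_apply (Γ := (VB B).isFun s a b) (inf_le_left.trans inf_le_left) (opr x z)
      inf_le_left ?_
    rw [rel_eq]; exact inf_le_right
  refine h1.trans (iSup_le fun x' => iSup_le fun y' => ?_)
  rw [isPair_eq, beq_opr]
  refine le_inf ?_ ?_
  · exact (ext_mem_left a).of_le' (x := x') (inf_le_right.trans inf_le_left)
      (inf_le_left.trans inf_le_left)
  · exact (ext_mem_left b).of_le' (x := y') (inf_le_right.trans inf_le_right)
      (inf_le_left.trans inf_le_right)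

theorem isFun_func {Δ : B} {s a b x y y' : BName B} (h : Δ ≤ (VB B).isFun s a b)
    (h1 : Δ ≤ (VB B).rel s x y) (h2 : Δ ≤ (VB B).rel s x y') : Δ ≤ beq y y' := by
  have h3 : Δ ≤ (VB B).rel s x y ⊓ (VB B).rel s x y' ⇨ (VB B).eq y y' :=
    (h.trans inf_le_right).trans (iInf_le_of_le x (iInf_le_of_le y (iInf_le _ y')))
  exact le_trans (le_inf h3 (le_inf h1 h2)) himp_inf_le

theorem isFun_total {Δ : B} {s a b x : BName B} (h : Δ ≤ (VB B).isFun s a b)
    (h1 : Δ ≤ bmem x a) : Δ ≤ ⨆ y, (VB B).rel s x y :=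
  iInf_himp_apply (h.trans (inf_le_left.trans inf_le_right)) x le_rfl h1

theorem isFun_pair {Δ : B} {s a b p : BName B} (h : Δ ≤ (VB B).isFun s a b)
    (h1 : Δ ≤ bmem p s) : Δ ≤ ⨆ x, ⨆ y, bmem x a ⊓ bmem y b ⊓ beq p (opr x y) := by
  have := iInf_himp_apply (h.trans (inf_le_left.trans inf_le_left)) p le_rfl h1
  simpa only [isPair_eq, VB_mem] using this

theorem iSup_disj {K : Type u} (r : K → K → Prop) [IsWellFounded K r] (a : K → B) :
    ⨆ y, a y ≤ ⨆ y, a y ⊓ (⨆ y' : {y' // r y' y}, a y'.1)ᶜ := by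
  refine iSup_le fun y => ?_
  induction y using (IsWellFounded.wf (r := r)).induction with
  | _ y ih =>
    have h1 : a y ≤ (a y ⊓ (⨆ y' : {y' // r y' y}, a y'.1)ᶜ) ⊔ ⨆ y' : {y' // r y' y}, a y'.1 := by
      rw [sup_inf_right, sup_comm (_ᶜ), sup_compl_eq_top, inf_top_eq]
      exact le_sup_left
    refine h1.trans (sup_le ?_ (iSup_le fun y' => ih y'.1 y'.2))
    exact le_iSup (fun y => a y ⊓ (⨆ y' : {y' // r y' y}, a y'.1)ᶜ) y

section

variable {X K : Type u} (η : X → BName B) (b : K → BName B)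

theorem rel_relFam_inj (hη : ∀ x x', x ≠ x' → beq (η x) (η x') = ⊥)
    (hb : ∀ y y', y ≠ y' → beq (b y) (b y') = ⊥) (v : X × K → B) (x : X) (y : K) :
    (VB B).rel (relFam (ι := X × K) (fun p => η p.1) (fun p => b p.2) v) (η x) (b y) = v (x, y) := by
  rw [rel_relFam]
  refine le_antisymm (iSup_le fun i => ?_) (le_iSup_of_le (x, y) ?_)
  · by_cases h1 : x = i.1
    · by_cases h2 : y = i.2
      · subst h1; subst h2; exact inf_le_left
      · rw [hb y i.2 h2]; simp
    · rw [hη x i.1 h1]; simp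
  · simp [beq_refl]

end

theorem enum : EnumStatement.{u} := by
  classical
  intro B _ c hc Γ hstd K hK ξ hξ Z hZ
  -- the set `F` of all functions from elements of `κ` to `κ`
  obtain ⟨F, hF⟩ : ∃ F : BName B, Γ ≤ (⨅ s, (VB B).mem s F ⇔
      (⨆ ξ, (VB B).mem ξ (check (Kap c)) ⊓ (VB B).isFun s ξ (check (Kap c)))) ⊓
      (VB B).leCard F (check (Kap c)) :=
    exists_wit ((Ext.iInf fun s => (ext_mem_right s).bihimp (Ext.const _)).inf
      (ext_leCard_left _)) (hstd.trans inf_le_right)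
  obtain ⟨g, hg⟩ := exists_enum_type (c := c) hK (hF.trans inf_le_right)
  obtain ⟨t, ht⟩ := exists_enum_type (c := c) hK hZ
  obtain ⟨o, ho, rfl⟩ := Ordinal.mem_toZFSet_iff.1 hξ
  have hKe : #K = #c.ord.ToType := by rw [mk_ord_toType, hK]
  obtain ⟨e⟩ := Cardinal.eq.1 hKe
  let b : K → BName B := fun y => check ((Ordinal.ToType.mk.symm (e y)).1.toZFSet)
  have hb : ∀ y y', y ≠ y' → beq (b y) (b y') = ⊥ := by
    intro y y' hne
    refine beq_check_of_ne fun h => hne ?_
    have := Ordinal.toZFSet_injective h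
    exact e.injective (Ordinal.ToType.mk.symm.injective (Subtype.ext this))
  have hbm : ∀ y, bmem (b y) (check (Kap c)) = ⊤ := fun y =>
    mem_check_of_mem (Ordinal.toZFSet_mem_toZFSet_iff.2 (Ordinal.ToType.mk.symm (e y)).2)
  let η : o.ToType → BName B := fun x => check ((Ordinal.ToType.mk.symm x).1.toZFSet)
  have hη : ∀ x x', x ≠ x' → beq (η x) (η x') = ⊥ := by
    intro y y' hne
    refine beq_check_of_ne fun h => hne ?_
    have := Ordinal.toZFSet_injective h
    exact Ordinal.ToType.mk.symm.injective (Subtype.ext this)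
  have hηm : ∀ x, bmem (η x) (check o.toZFSet) = ⊤ := fun x =>
    mem_check_of_mem (Ordinal.toZFSet_mem_toZFSet_iff.2 (Ordinal.ToType.mk.symm x).2)
  have hηs : ∀ z, bmem z (check o.toZFSet) ≤ ⨆ x, beq z (η x) := by
    intro z
    rw [mem_check]
    refine iSup_le fun a => iSup_le fun ha => ?_
    obtain ⟨p, hp, rfl⟩ := Ordinal.mem_toZFSet_iff.1 ha
    refine le_iSup_of_le (Ordinal.ToType.mk ⟨p, hp⟩) ?_
    simp [η]
  refine ⟨fun k => relFam (ι := o.ToType × K) (fun p => η p.1) (fun p => t p.2)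
    (fun p => (VB B).rel (g k) (η p.1) (b p.2)), fun s => ?_⟩
  set Δ := Γ ⊓ (VB B).isFun s (check o.toZFSet) Z with hΔ
  have hΔΓ : Δ ≤ Γ := inf_le_left
  have hΔf : Δ ≤ (VB B).isFun s (check o.toZFSet) Z := inf_le_right
  let v : o.ToType × K → B := fun p => (VB B).rel s (η p.1) (t p.2) ⊓
    (⨆ y' : {y' // WellOrderingRel y' p.2}, (VB B).rel s (η p.1) (t y'.1))ᶜ
  have hvtot : ∀ x, Δ ≤ ⨆ y, v (x, y) := by
    intro x
    have h1 : Δ ≤ ⨆ z, (VB B).rel s (η x) z :=
      isFun_total hΔf (by rw [hηm]; exact le_top)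
    have h2 : Δ ≤ ⨆ y, (VB B).rel s (η x) (t y) := by
      refine (le_inf le_rfl h1).trans ?_
      rw [inf_iSup_eq]
      refine iSup_le fun z => ?_
      have h3 : Δ ⊓ (VB B).rel s (η x) z ≤ bmem z Z :=
        ((inf_le_inf_right _ hΔf).trans (isFun_rel_mem s _ _ _ _)).trans inf_le_right
      have h4 : Δ ⊓ (VB B).rel s (η x) z ≤ ⨆ y, beq z (t y) :=
        (le_inf (inf_le_left.trans hΔΓ) h3).trans (ht z)
      refine (le_inf inf_le_right h4).trans ?_
      rw [inf_iSup_eq]
      refine iSup_mono fun y => ?_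
      exact (ext_rel_trd s (η x)).of_le (x := z) inf_le_right inf_le_left
    exact h2.trans (iSup_disj WellOrderingRel (fun y => (VB B).rel s (η x) (t y)))
  have hvle : ∀ x y, v (x, y) ≤ (VB B).rel s (η x) (t y) := fun x y => inf_le_left
  have hvdisj : ∀ x y y', y ≠ y' → v (x, y) ⊓ v (x, y') ≤ ⊥ := by
    have key : ∀ x y y', WellOrderingRel y y' → v (x, y) ⊓ v (x, y') ≤ ⊥ := by
      intro x y y' hyy
      have h1 : v (x, y) ≤ ⨆ y'' : {y'' // WellOrderingRel y'' y'},
          (VB B).rel s (η x) (t y''.1) := inf_le_left.trans (le_iSup_of_le ⟨y, hyy⟩ le_rfl)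
      have h2 : v (x, y') ≤ (⨆ y'' : {y'' // WellOrderingRel y'' y'},
          (VB B).rel s (η x) (t y''.1))ᶜ := inf_le_right
      exact le_trans (inf_le_inf h1 h2) (by rw [inf_compl_self])
    intro x y y' hne
    rcases trichotomous_of WellOrderingRel y y' with h | h | h
    · exact key x y y' h
    · exact absurd h hne
    · rw [inf_comm]; exact key x y' y h
  let s' : BName B := relFam (ι := o.ToType × K) (fun p => η p.1) (fun p => b p.2) v
  have hs'rel : ∀ x y, (VB B).rel s' (η x) (b y) = v (x, y) := rel_relFam_inj η b hη hb v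
  have hs'f : Δ ≤ (VB B).isFun s' (check o.toZFSet) (check (Kap c)) := by
    refine le_inf (le_inf ?_ ?_) ?_
    · refine (le_iInf_mem (x := s') (Ext.iSup fun x => Ext.iSup fun y => (Ext.const _).inf
        (ext_isPair_fst x y))).2 ?_
      rintro ⟨x, y⟩
      refine le_iSup_of_le (η x) (le_iSup_of_le (b y) (le_inf (le_inf ?_ ?_) ?_))
      · rw [VB_mem, hηm]; exact le_top
      · rw [VB_mem, hbm]; exact le_top
      · rw [isPair_eq]
        change _ ≤ beq (opr (η x) (b y)) (opr (η x) (b y))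
        rw [beq_refl]; exact le_top
    · refine le_iInf fun z => ?_
      rw [le_himp_iff]
      have h1 : Δ ⊓ (VB B).mem z (check o.toZFSet) ≤ ⨆ x, Δ ⊓ beq z (η x) := by
        rw [← inf_iSup_eq]
        exact inf_le_inf_left _ (hηs z)
      refine h1.trans (iSup_le fun x => ?_)
      refine (Ext.iSup fun y => ext_rel_snd s' y).of_le' (x := η x) inf_le_right ?_
      refine inf_le_left.trans ((hvtot x).trans (iSup_le fun y => le_iSup_of_le (b y) ?_))
      rw [hs'rel]
    · refine le_iInf fun x => le_iInf fun y => le_iInf fun y' => ?_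
      rw [le_himp_iff]
      refine inf_le_right.trans ?_
      rw [rel_relFam, rel_relFam, iSup_inf_iSup]
      refine iSup_le fun ⟨⟨x1, y1⟩, ⟨x2, y2⟩⟩ => ?_
      change v (x1, y1) ⊓ (beq x (η x1) ⊓ beq y (b y1)) ⊓
        (v (x2, y2) ⊓ (beq x (η x2) ⊓ beq y' (b y2))) ≤ beq y y'
      by_cases hx : x1 = x2
      · subst hx
        by_cases hy : y1 = y2
        · subst hy
          exact (ext_eq_right y).of_le' (x := b y1)
            (inf_le_right.trans (inf_le_right.trans inf_le_right))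
            (inf_le_left.trans (inf_le_right.trans inf_le_right))
        · refine le_trans ?_ ((hvdisj x1 y1 y2 hy).trans bot_le)
          exact le_inf (inf_le_left.trans inf_le_left) (inf_le_right.trans inf_le_left)
      · refine le_trans ?_ bot_le
        rw [← hη x1 x2 hx]
        exact (ext_eq_left (η x2)).of_le (x := x)
          (inf_le_left.trans (inf_le_right.trans inf_le_left))
          (inf_le_right.trans (inf_le_right.trans inf_le_left))
  have hs'F : Δ ≤ bmem s' F := by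
    have h1 := le_bihimp_iff'.1 ((hF.trans inf_le_left).trans (iInf_le _ s'))
    have h2 : Δ ≤ Γ ⊓ ⨆ ξ, (VB B).mem ξ (check (Kap c)) ⊓ (VB B).isFun s' ξ (check (Kap c)) := by
      refine le_inf hΔΓ (le_iSup_of_le (check o.toZFSet) (le_inf ?_ hs'f))
      rw [VB_mem, mem_check_of_mem (y := Kap c) (Ordinal.toZFSet_mem_toZFSet_iff.2 ho)]
      exact le_top
    rw [← h1] at h2
    exact h2.trans inf_le_right
  have hfin : Δ ≤ ⨆ k, Δ ⊓ beq s' (g k) := by
    rw [← inf_iSup_eq]
    exact le_inf le_rfl ((le_inf hΔΓ hs'F).trans (hg s'))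
  refine hfin.trans (iSup_mono fun k => ?_)
  refine le_trans (le_inf ?_ ?_) (sub_inf_sub_le _ _)
  · refine le_iInf fun z => ?_
    rw [le_himp_iff]
    set E := Δ ⊓ beq s' (g k) ⊓ (VB B).mem z s with hE
    have hEΔ : E ≤ Δ := inf_le_left.trans inf_le_left
    have hEs : E ≤ beq s' (g k) := inf_le_left.trans inf_le_right
    have h1 := isFun_pair (hEΔ.trans hΔf) (p := z) inf_le_right
    refine (le_inf le_rfl h1).trans ?_
    rw [inf_iSup_eq]
    refine iSup_le fun x => ?_
    rw [inf_iSup_eq]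
    refine iSup_le fun y => ?_
    set E1 := E ⊓ (bmem x (check o.toZFSet) ⊓ bmem y Z ⊓ beq z (opr x y)) with hE1
    have h2 : E1 ≤ ⨆ x0, beq x (η x0) :=
      (inf_le_right.trans (inf_le_left.trans inf_le_left)).trans (hηs x)
    refine (le_inf le_rfl h2).trans ?_
    rw [inf_iSup_eq]
    refine iSup_le fun x0 => ?_
    refine (le_inf le_rfl ((inf_le_left.trans (inf_le_left.trans hEΔ)).trans (hvtot x0))).trans ?_
    rw [inf_iSup_eq]
    refine iSup_le fun y0 => ?_
    set E2 := E1 ⊓ beq x (η x0) ⊓ v (x0, y0) with hE2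
    have hE2E : E2 ≤ E := inf_le_left.trans (inf_le_left.trans inf_le_left)
    have hz : E2 ≤ beq z (opr x y) :=
      inf_le_left.trans (inf_le_left.trans (inf_le_right.trans inf_le_right))
    have hx : E2 ≤ beq x (η x0) := inf_le_left.trans inf_le_right
    have hrel : E2 ≤ (VB B).rel s (η x0) y := by
      refine (ext_rel_snd s y).of_le (x := x) hx ?_
      rw [rel_eq]
      exact (ext_mem_left s).of_le (x := z) hz (hE2E.trans inf_le_right)
    have hrel2 : E2 ≤ (VB B).rel s (η x0) (t y0) := inf_le_right.trans (hvle x0 y0)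
    have hyt : E2 ≤ beq y (t y0) := isFun_func ((hE2E.trans hEΔ).trans hΔf) hrel hrel2
    have hz2 : E2 ≤ beq z (opr (η x0) (t y0)) := by
      refine (ext_eq_right z).of_le (x := opr x y) ?_ hz
      rw [beq_opr]
      exact le_inf hx hyt
    change E2 ≤ bmem z (relFam (ι := o.ToType × K) (fun p => η p.1) (fun p => t p.2)
      (fun p => (VB B).rel (g k) (η p.1) (b p.2)))
    refine (ext_mem_left _).of_le' (x := opr (η x0) (t y0)) hz2 ?_
    refine le_trans ?_ (vl_le_bmem (relFam (ι := o.ToType × K) (fun p => η p.1) (fun p => t p.2)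
      (fun p => (VB B).rel (g k) (η p.1) (b p.2))) (x0, y0))
    change E2 ≤ (VB B).rel (g k) (η x0) (b y0)
    refine (ext_rel_fst (η x0) (b y0)).of_le (x := s') (hE2E.trans hEs) ?_
    rw [hs'rel]
    exact inf_le_right
  · rw [le_sub_iff]
    rintro ⟨x, y⟩
    change Δ ⊓ beq s' (g k) ⊓ (VB B).rel (g k) (η x) (b y) ≤ bmem (opr (η x) (t y)) s
    rw [← rel_eq]
    refine le_trans ?_ (hvle x y)
    rw [← hs'rel]
    exact (ext_rel_fst (η x) (b y)).of_le' (x := g k) (inf_le_left.trans inf_le_right) inf_le_right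

end Pool.Agent.Lib.MP_100a6c_lc.H77
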