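import Pool.Agent.Lib.MP_100a6c_lc.H77.EnumMod

/-!
# HS2: closure of `H(θ)` under pairs and under functions from elements of `κ`
-/

universe u

open scoped symmDiff
open Cardinal

namespace Pool.Agent.Lib.MP_100a6c_lc.H77

open BName

variable {B : Type u} [CompleteBooleanAlgebra B]

theorem upair_mem {c : Cardinal.{u}} (hc : ℵ₀ ≤ c) {Γ : B} {H : BName B} (h : HProp0 c Γ H)
    {Δ : B} (hΔ : Δ ≤ Γ) {x y : BName B} (hx : Δ ≤ bmem x H) (hy : Δ ≤ bmem y H) :
    Δ ≤ bmem (upr x y) H := by
  refine h.small Δ hΔ _ ?_ ?_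
  · rw [le_sub_iff]
    rintro ⟨t⟩
    refine inf_le_left.trans ?_
    cases t
    · exact hy
    · exact hx
  · refine le_leCard_of_enum (Y := ULift Bool) (t := fun t => if t.down then x else y) c ?_ ?_
    · refine le_trans ?_ hc
      exact (Cardinal.lt_aleph0_of_finite _).le
    · intro z
      refine inf_le_right.trans ?_
      rw [mem_upr]
      refine sup_le ?_ ?_
      · exact le_iSup_of_le ⟨true⟩ (by simp)
      · exact le_iSup_of_le ⟨false⟩ (by simp)

theorem pair_mem {c : Cardinal.{u}} (hc : ℵ₀ ≤ c) {Γ : B} {H : BName B} (h : HProp0 c Γ H)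
    {Δ : B} (hΔ : Δ ≤ Γ) {x y : BName B} (hx : Δ ≤ bmem x H) (hy : Δ ≤ bmem y H) :
    Δ ≤ bmem (opr x y) H :=
  upair_mem hc h hΔ (upair_mem hc h hΔ hx hx) (upair_mem hc h hΔ hx hy)

theorem hs2 : HS2Statement.{u} := by
  intro B _ c hc Γ H h
  refine { h with upair := fun Δ hΔ x y hx hy => upair_mem hc h hΔ hx hy,
                  pair := fun Δ hΔ x y hx hy => pair_mem hc h hΔ hx hy, func := ?_ }
  intro Δ hΔ ξ hξ s hs
  obtain ⟨o, ho, rfl⟩ := Ordinal.mem_toZFSet_iff.1 hξ
  have hξH : Δ ≤ bmem (check o.toZFSet) H := by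
    refine h.trans Δ hΔ _ (check (Mu c)) ?_ (hΔ.trans h.mu)
    rw [mem_check_of_mem]
    · exact le_top
    · exact Ordinal.toZFSet_mem_toZFSet_iff.2
        (ho.trans (Cardinal.ord_lt_ord.2 (Order.lt_succ c)))
  refine h.small Δ hΔ s ?_ ?_
  · refine le_iInf fun z => ?_
    rw [le_himp_iff]
    have h1 := isFun_pair (p := z) (inf_le_left.trans hs : Δ ⊓ (VB B).mem z s ≤ _) inf_le_right
    refine (le_inf le_rfl h1).trans ?_
    rw [inf_iSup_eq]
    refine iSup_le fun x => ?_
    rw [inf_iSup_eq]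
    refine iSup_le fun y => ?_
    have hEΔ : Δ ⊓ (VB B).mem z s ⊓ (bmem x (check o.toZFSet) ⊓ bmem y H ⊓ beq z (opr x y)) ≤ Δ :=
      inf_le_left.trans inf_le_left
    refine (ext_mem_left H).of_le' (x := opr x y) (inf_le_right.trans inf_le_right) ?_
    refine pair_mem hc h (hEΔ.trans hΔ) ?_ ?_
    · exact h.trans _ (hEΔ.trans hΔ) _ (check o.toZFSet)
        (inf_le_right.trans (inf_le_left.trans inf_le_left)) (hEΔ.trans hξH)
    · exact inf_le_right.trans (inf_le_left.trans inf_le_right)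
  · let η : o.ToType → BName B := fun x => check ((Ordinal.ToType.mk.symm x).1.toZFSet)
    have hηs : ∀ z, bmem z (check o.toZFSet) ≤ ⨆ x, beq z (η x) := by
      intro z
      rw [mem_check]
      refine iSup_le fun a => iSup_le fun ha => ?_
      obtain ⟨p, hp, rfl⟩ := Ordinal.mem_toZFSet_iff.1 ha
      refine le_iSup_of_le (Ordinal.ToType.mk ⟨p, hp⟩) ?_
      simp [η]
    choose τ hτ using fun x : o.ToType => exists_max (ext_rel_trd s (η x))
    refine le_leCard_of_enum (Y := o.ToType) (t := fun x => opr (η x) (τ x)) c ?_ ?_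
    · rw [Cardinal.mk_toType]
      exact (Cardinal.lt_ord.1 ho).le
    · intro z
      have h1 := isFun_pair (p := z) (inf_le_left.trans hs : Δ ⊓ bmem z s ≤ _) inf_le_right
      refine (le_inf le_rfl h1).trans ?_
      rw [inf_iSup_eq]
      refine iSup_le fun x => ?_
      rw [inf_iSup_eq]
      refine iSup_le fun y => ?_
      set E1 := Δ ⊓ bmem z s ⊓ (bmem x (check o.toZFSet) ⊓ bmem y H ⊓ beq z (opr x y)) with hE1
      have h2 : E1 ≤ ⨆ x0, beq x (η x0) :=
        (inf_le_right.trans (inf_le_left.trans inf_le_left)).trans (hηs x)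
      refine (le_inf le_rfl h2).trans ?_
      rw [inf_iSup_eq]
      refine iSup_mono fun x0 => ?_
      have hz : E1 ⊓ beq x (η x0) ≤ beq z (opr x y) :=
        inf_le_left.trans (inf_le_right.trans inf_le_right)
      have hrel : E1 ⊓ beq x (η x0) ≤ (VB B).rel s (η x0) y := by
        refine (ext_rel_snd s y).of_le (x := x) inf_le_right ?_
        rw [rel_eq]
        exact (ext_mem_left s).of_le (x := z) hz
          (inf_le_left.trans (inf_le_left.trans inf_le_right))
      have hrel2 : E1 ⊓ beq x (η x0) ≤ (VB B).rel s (η x0) (τ x0) := by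
        rw [← hτ x0]
        exact hrel.trans (le_iSup (fun y => (VB B).rel s (η x0) y) y)
      have hy : E1 ⊓ beq x (η x0) ≤ beq y (τ x0) :=
        isFun_func ((inf_le_left.trans (inf_le_left.trans inf_le_left)).trans hs) hrel hrel2
      refine (ext_eq_right z).of_le (x := opr x y) ?_ hz
      rw [beq_opr]
      exact le_inf inf_le_right hy

end Pool.Agent.Lib.MP_100a6c_lc.H77
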